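import Pool.Agent.TH672.Sem
import Pool.Agent.TH894.J104

/-!
# Soundness of the calculus, truth of translations, existence of the auxiliary formulas
-/

set_option autoImplicit false
namespace Pool.Agent.TH672
open Form

namespace J200

theorem ren_val {x y : ℕ} (v : ℕ → ℕ) (u : ℕ) : v (ren x y u) = Function.update v x (v y) u := by
  unfold ren
  by_cases h : u = x
  · subst h; simp
  · rw [if_neg h, Function.update_of_ne h]

theorem holds_subst {x y : ℕ} : ∀ {φ : Form}, φ.FreeFor y x → ∀ v : ℕ → ℕ,
    ((φ.subst x y).Holds v ↔ φ.Holds (Function.update v x (v y))) := by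
  intro φ
  induction φ with
  | bot => intro _ v; exact Iff.rfl
  | eq a b => intro _ v; simp only [Form.subst, Holds, ren_val]
  | zero a => intro _ v; simp only [Form.subst, Holds, ren_val]
  | succ a b => intro _ v; simp only [Form.subst, Holds, ren_val]
  | add a b c => intro _ v; simp only [Form.subst, Holds, ren_val]
  | mul a b c => intro _ v; simp only [Form.subst, Holds, ren_val]
  | imp φ ψ ih ih' =>
    intro h v
    simp only [Form.subst, Holds, ih h.1 v, ih' h.2 v]
  | all u φ ih =>
    intro h v
    by_cases hu : u = x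
    · subst hu
      simp only [Form.subst, if_true, Holds, Function.update_idem]
    · by_cases hx : φ.Free x
      · have h' : u ≠ y ∧ φ.FreeFor y x := by
          rcases h with h | h | h
          · exact absurd h hu
          · exact absurd hx h
          · exact h
        simp only [Form.subst, if_neg hu, Holds]
        refine forall_congr' fun a => ?_
        rw [ih h'.2, Function.update_of_ne (Ne.symm h'.1), Function.update_comm hu]
      · have hx' : ¬ (Form.all u φ).Free x := fun hf => hx hf.2
        rw [subst_of_not_free y hx']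
        refine ArAux.coinc _ _ _ fun z hz => ?_
        rw [Function.update_of_ne]
        rintro rfl
        exact hx hz.2

theorem sw_val {x y u u' : ℕ} {v : ℕ → ℕ} (e : v x = v y) (h : Sw x y u u') : v u' = v u := by
  rcases h with rfl | ⟨rfl, rfl⟩
  · rfl
  · exact e.symm

theorem logAx_true {φ : Form} (h : LogAx φ) : φ.True := by
  intro v
  cases h with
  | k φ ψ => intro h1 _; exact h1
  | s φ ψ χ => intro h1 h2 h3; exact h1 h3 (h2 h3)
  | dn φ =>
    intro h1
    by_contra h2
    exact h1 h2
  | inst x y φ hf =>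
    intro h1
    exact (holds_subst hf v).2 (h1 (v y))
  | dist x φ ψ hx =>
    intro h1 h2 a
    refine h1 a ((ArAux.coinc φ _ _ fun z hz => ?_).1 h2)
    rw [Function.update_of_ne]
    rintro rfl
    exact hx hz
  | refl x => rfl
  | repl x y φ ψ hr =>
    intro (e : v x = v y) h1
    cases hr with
    | eq h2 h3 =>
      simp only [Holds] at h1 ⊢
      rw [sw_val e h2, sw_val e h3]; exact h1
    | zero h2 =>
      simp only [Holds] at h1 ⊢
      rw [sw_val e h2]; exact h1
    | succ h2 h3 =>
      simp only [Holds] at h1 ⊢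
      rw [sw_val e h2, sw_val e h3]; exact h1
    | add h2 h3 h4 =>
      simp only [Holds] at h1 ⊢
      rw [sw_val e h2, sw_val e h3, sw_val e h4]; exact h1
    | mul h2 h3 h4 =>
      simp only [Holds] at h1 ⊢
      rw [sw_val e h2, sw_val e h3, sw_val e h4]; exact h1

theorem proof_true {A : List Form} (hA : ∀ φ ∈ A, φ.True) :
    ∀ π : List Form, IsProof A π → ∀ φ ∈ π, φ.True
  | [], _, φ, h => absurd h (by simp)
  | ψ :: π, h, φ, hm => by
    have ih := proof_true hA π h.1
    rcases List.mem_cons.1 hm with rfl | hm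
    · rcases h.2 with h1 | h1 | ⟨χ, h1, h2⟩ | ⟨χ, h1, x, rfl⟩
      · exact hA _ h1
      · exact logAx_true h1
      · intro v
        exact ih _ h2 v (ih _ h1 v)
      · intro v a
        exact ih _ h1 _
    · exact ih φ hm

end J200

theorem soundness {A : List Form} (hA : ∀ φ ∈ A, φ.True) {m : ℕ} {φ : Form} (h : Proves A m φ) :
    φ.True := by
  obtain ⟨π, h1, -⟩ := h
  exact J200.proof_true hA _ h1 φ (by simp)

theorem robinson_true : ∀ φ ∈ robinson, φ.True := by
  intro φ hφ v
  simp only [robinson, List.mem_cons, List.not_mem_nil, or_false] at hφ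
  rcases hφ with rfl | rfl | rfl | rfl | rfl | rfl | rfl | rfl | rfl | rfl | rfl | rfl | rfl |
    rfl | rfl
  · simp [Form.ex, Form.neg, Holds]
  · simp only [Holds, Function.update_apply]
    intro a b h1 h2
    simp_all
  · simp [Form.ex, Form.neg, Holds, Function.update_apply]
  · simp only [Holds, Function.update_apply]
    intro a b c h1 h2
    simp_all
  · simp [Form.ex, Form.neg, Holds, Function.update_apply]
  · simp only [Holds, Function.update_apply]
    intro a b c d h1 h2
    simp_all
  · simp [Form.ex, Form.neg, Holds, Function.update_apply]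
  · simp only [Holds, Function.update_apply]
    intro a b c d h1 h2
    simp_all
  · simp only [Form.neg, Holds, Function.update_apply]
    intro a b h1 h2
    simp_all
  · simp only [Holds, Function.update_apply]
    intro a b c h1 h2
    simp_all
  · simp only [Form.or, Form.ex, Form.neg, Holds, Function.update_apply]
    intro a h1 h2
    simp only [if_true] at h1
    obtain ⟨b, rfl⟩ := Nat.exists_eq_succ_of_ne_zero h1
    exact h2 b (by simp)
  · simp only [Holds, Function.update_apply]
    intro a b h1
    simp_all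
  · simp only [Holds, Function.update_apply]
    intro a b c d e h1 h2 h3
    simp at h1 h2 h3 ⊢
    omega
  · simp only [Holds, Function.update_apply]
    intro a b h1
    simp_all
  · simp only [Holds, Function.update_apply]
    intro a b c d e h1 h2 h3
    simp at h1 h2 h3 ⊢
    rw [h1, ← h3, ← h2]
    ring

theorem robinson_closed : ∀ φ ∈ robinson, φ.Closed := by
  intro φ hφ x
  simp only [robinson, List.mem_cons, List.not_mem_nil, or_false] at hφ
  rcases hφ with rfl | rfl | rfl | rfl | rfl | rfl | rfl | rfl | rfl | rfl | rfl | rfl | rfl |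
    rfl | rfl <;> simp only [Form.or, Form.ex, Form.neg, Form.Free] <;> tauto

theorem tr_holds {ι : Sy → Form}
    (hι : ∀ s (v : ℕ → ℕ), (ι s).Holds v ↔ Std.op s (v 5) (v 6) (v 7) (v 8)) :
    ∀ φ : Fm Sy, Av φ → ∀ v : ℕ → ℕ, (tr ι φ).Holds v ↔ Fm.Sat Std φ v := by
  intro φ
  induction φ with
  | bot => intro _ v; exact Iff.rfl
  | eq x y => intro _ v; exact Iff.rfl
  | zero x => intro _ v; exact Iff.rfl
  | succ x y => intro _ v; exact Iff.rfl
  | add x y z => intro _ v; exact Iff.rfl
  | mul x y z => intro _ v; exact Iff.rfl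
  | op i a b c d =>
    intro h v
    obtain ⟨ha, hb, hc, hd⟩ := h
    have n : ∀ {x s : ℕ}, ok x → ¬ ok s → x ≠ s := fun h h' e => h' (e ▸ h)
    have h5 : ¬ ok 5 := by decide
    have h6 : ¬ ok 6 := by decide
    have h7 : ¬ ok 7 := by decide
    have h8 : ¬ ok 8 := by decide
    have b5 := n hb h5
    have c5 := n hc h5
    have c6 := n hc h6
    have d5 := n hd h5
    have d6 := n hd h6
    have d7 := n hd h7
    have a5 := n ha h5
    have b6 := n hb h6
    have c7 := n hc h7
    have d8 := n hd h8
    simp only [tr, wrap, Holds, hι, Fm.sat_op, Function.update_apply]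
    simp [a5, b5, b6, c5, c6, c7, d5, d6, d7, d8]
  | imp φ ψ ih ih' =>
    intro h v
    simp only [tr, Holds, Fm.sat_imp, ih h.1, ih' h.2]
  | all x φ ih =>
    intro h v
    simp only [tr, Holds, Fm.sat_all]
    refine forall_congr' fun a => ?_
    rw [ih h.2, ← upd_eq_update]
    rfl

theorem exists_aux (P : Form) (hP : Represents P) : ∃ ι : Sy → Form, Okι ι ∧
    (∀ j, ι (.o j) = Form.bot) ∧
    ∀ s (v : ℕ → ℕ), (ι s).Holds v ↔ Std.op s (v 5) (v 6) (v 7) (v 8) := by
  have hp : Ar (fun v => Rp (v 2) (v 3) (v 4)) := ⟨P, fun v => hP.2 v⟩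
  have key : ∀ s : Sy, (∀ j, s ≠ .o j) →
      Ar (fun v => Std.op s (v 0 : ℕ) (v 1 : ℕ) (v 2 : ℕ) (v 3 : ℕ)) := by
    intro s hs
    cases s with
    | p => exact hp.ren (fun i => i - 2)
    | q => exact (hp.ren (fun i => if i = 4 then 3 else i - 2)).and (Ar.le 1 2)
    | im => exact ar_im
    | al => exact ar_al
    | ins => exact ar_in
    | tt => exact ar_tt
    | dp => exact ar_dp
    | cl => exact ar_cl
    | vv => exact ar_vv
    | cat => exact ar_cat
    | vs => exact ar_vs
    | lc => exact ar_lc
    | mem => exact ar_mem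
    | ln => exact ar_ln
    | tm2 => exact ar_tm 2
    | tm3 => exact ar_tm 3
    | tm4 => exact ar_tm 4
    | o j => exact absurd rfl (hs j)
    | _ => exact ar_at
  have key2 : ∀ s : Sy, ∃ φ : Form, (∀ x, φ.Free x → ¬ ok x) ∧ (∀ j, s = .o j → φ = Form.bot) ∧
      ∀ v : ℕ → ℕ, φ.Holds v ↔ Std.op s (v 5) (v 6) (v 7) (v 8) := by
    intro s
    by_cases hs : ∃ j, s = .o j
    · obtain ⟨j, rfl⟩ := hs
      exact ⟨Form.bot, fun x h => h.elim, fun _ _ => rfl, fun v => Iff.rfl⟩
    · push Not at hs
      obtain ⟨φ, h1, h2⟩ := Ar.rep4 (fun a b c d => Std.op s a b c d) (key s hs) 5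
      refine ⟨φ, fun x hx => ?_, fun j hj => absurd hj (hs j), fun v => h2 v⟩
      have := h1 x hx
      unfold ok
      omega
  choose ι h1 h2 h3 using key2
  exact ⟨ι, h1, fun j => h2 _ j rfl, h3⟩

end Pool.Agent.TH672
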